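import Pool.Agent.helper62.W3.SpecA

/-! # Row TRA of the we project: the weight in residue classes -/

set_option autoImplicit false

namespace Pool.Agent.EC

open Finset ArithmeticFunction
open Pool.Agent.CH (Win rgh dl eU Mo ClP ClB)

private theorem TRA_diff (h2 : TRV_stmt) (N q K : ℕ) (hN : 1 ≤ N) (h01 : fN N 0 = fN N 1) (r s : ℕ)
    (hrs : r < s) (hs : s < q) :
    |∑ k ∈ range K, fN N (s + k * q) - ∑ k ∈ range K, fN N (r + k * q)| ≤ 2 := by
  set x : ℕ → ℕ := fun i => max 1 ((if i % 2 = 0 then r else s) + (i / 2) * q) with hx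
  have hmono : Monotone x := by
    refine monotone_nat_of_le_succ fun i => ?_
    rw [hx]
    refine max_le_max le_rfl ?_
    rcases Nat.even_or_odd' i with ⟨m, rfl | rfl⟩
    · have e1 : 2 * m % 2 = 0 := by omega
      have e2 : (2 * m + 1) % 2 ≠ 0 := by omega
      have e3 : 2 * m / 2 = m := by omega
      have e4 : (2 * m + 1) / 2 = m := by omega
      rw [if_pos e1, if_neg e2, e3, e4]
      omega
    · have e1 : (2 * m + 1) % 2 ≠ 0 := by omega
      have e2 : (2 * m + 1 + 1) % 2 = 0 := by omega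
      have e3 : (2 * m + 1) / 2 = m := by omega
      have e4 : (2 * m + 1 + 1) / 2 = m + 1 := by omega
      rw [if_neg e1, if_pos e2, e3, e4, add_mul, one_mul]
      omega
  have h3 := h2 N hN x hmono (le_max_left _ _) (2 * K)
  have hval : ∀ j, fN N (max 1 j) = fN N j := by
    intro j
    rcases Nat.eq_zero_or_pos j with h | h
    · rw [h, max_eq_left (by omega), h01]
    · rw [max_eq_right h]
  have h4 : ∀ k, fN N (x (2 * k)) = fN N (r + k * q) := by
    intro k
    have e1 : 2 * k % 2 = 0 := by omega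
    have e3 : 2 * k / 2 = k := by omega
    rw [hx]
    simp only [e1, e3, if_true]
    exact hval _
  have h5 : ∀ k, fN N (x (2 * k + 1)) = fN N (s + k * q) := by
    intro k
    have e1 : (2 * k + 1) % 2 ≠ 0 := by omega
    have e3 : (2 * k + 1) / 2 = k := by omega
    rw [hx]
    simp only [e3, if_neg e1]
    exact hval _
  have h6 : ∀ n : ℕ, ∑ k ∈ range n, |fN N (s + k * q) - fN N (r + k * q)| ≤
      ∑ i ∈ range (2 * n), |fN N (x (i + 1)) - fN N (x i)| := by
    intro n
    induction n with
    | zero => simp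
    | succ n ih =>
      rw [Finset.sum_range_succ, show 2 * (n + 1) = 2 * n + 1 + 1 by ring, Finset.sum_range_succ,
        Finset.sum_range_succ, h5, h4]
      have h7 := abs_nonneg (fN N (x (2 * n + 1 + 1)) - fN N (s + n * q))
      linarith
  rw [← Finset.sum_sub_distrib]
  exact (Finset.abs_sum_le_sum_abs _ _).trans ((h6 K).trans h3)

theorem TRA (h1 : TRB_stmt) (h2 : TRV_stmt) : TRA_stmt := by
  refine ⟨2, by norm_num, fun N hN q a hq => ?_⟩
  have hf0 : ∀ j, fN N j ≠ 0 → N ^ 3 < j ∧ j < (N + 1) ^ 3 := fun j hj => h1.2.1 N j (by omega) hj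
  have hfW : ∀ j, j ∉ Win N → fN N j = 0 := by
    intro j hj
    by_contra hc
    obtain ⟨h3, h4⟩ := hf0 j hc
    exact hj (Finset.mem_Ioc.2 ⟨h3, h4.le⟩)
  have hN3 : 1 ≤ N ^ 3 := Nat.one_le_pow _ _ (by omega)
  have h0 : fN N 0 = 0 := by
    by_contra hc
    have := (hf0 0 hc).1
    omega
  have h01 : fN N 0 = fN N 1 := by
    rw [h0]
    by_contra hc
    have := (hf0 1 (fun h => hc h.symm)).1
    omega
  set K : ℕ := (N + 1) ^ 3 + 1 with hK
  set S : ℕ → ℝ := fun r => ∑ j ∈ (Win N).filter (fun j => j % q = r), fN N j with hS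
  have hSr : ∀ r < q, S r = ∑ k ∈ range K, fN N (r + k * q) := by
    intro r hr
    have e1 : ∑ k ∈ range K, fN N (r + k * q) =
        ∑ j ∈ (range K).image (fun k => r + k * q), fN N j := by
      rw [Finset.sum_image]
      intro k _ k' _ hkk
      have h3 : k * q = k' * q := by
        simp only at hkk
        omega
      exact Nat.eq_of_mul_eq_mul_right (by omega) h3
    rw [e1]
    refine Finset.sum_subset_zero_on_sdiff ?_ ?_ fun _ _ => rfl
    · intro j hj
      rw [Finset.mem_filter] at hj
      rw [Finset.mem_image]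
      refine ⟨j / q, ?_, ?_⟩
      · rw [Finset.mem_range, hK]
        have h3 := (Finset.mem_Ioc.1 hj.1).2
        have h4 := Nat.div_le_self j q
        omega
      · have h3 := Nat.mod_add_div' j q
        rw [hj.2] at h3
        exact h3
    · intro j hj
      rw [Finset.mem_sdiff, Finset.mem_image] at hj
      obtain ⟨⟨k, _, hk⟩, h4⟩ := hj
      apply hfW
      intro hjW
      apply h4
      rw [Finset.mem_filter]
      refine ⟨hjW, ?_⟩
      rw [← hk, Nat.add_mul_mod_self_right, Nat.mod_eq_of_lt hr]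
  have hdiff : ∀ r < q, ∀ s < q, |S r - S s| ≤ 2 := by
    intro r hr s hs
    rcases lt_trichotomy r s with h | h | h
    · rw [hSr r hr, hSr s hs, abs_sub_comm]
      exact TRA_diff h2 N q K (by omega) h01 r s h hs
    · rw [h, sub_self, abs_zero]
      norm_num
    · rw [hSr r hr, hSr s hs]
      exact TRA_diff h2 N q K (by omega) h01 s r h hr
  have hX : XN N = ∑ r ∈ range q, S r := by
    unfold XN
    rw [hS]
    refine (Finset.sum_fiberwise_of_maps_to (g := fun j => j % q) (t := range q) ?_ _).symm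
    intro j _
    exact Finset.mem_range.2 (Nat.mod_lt _ (by omega))
  have hA : ∑ j ∈ (Win N).filter (fun j => j ≡ a [MOD q]), fN N j = S (a % q) := rfl
  rw [hA]
  have haq : a % q < q := Nat.mod_lt _ (by omega)
  have hq0 : (0 : ℝ) < q := by exact_mod_cast (show 0 < q by omega)
  have h3 : (q : ℝ) * (S (a % q) - XN N / q) = ∑ r ∈ range q, (S (a % q) - S r) := by
    rw [Finset.sum_sub_distrib, ← hX, Finset.sum_const, Finset.card_range, nsmul_eq_mul]
    field_simp
  have h4 : |(q : ℝ) * (S (a % q) - XN N / q)| ≤ q * 2 := by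
    rw [h3]
    refine (Finset.abs_sum_le_sum_abs _ _).trans ?_
    calc ∑ r ∈ range q, |S (a % q) - S r| ≤ ∑ r ∈ range q, (2 : ℝ) :=
          Finset.sum_le_sum fun r hr => hdiff _ haq r (Finset.mem_range.1 hr)
      _ = q * 2 := by rw [Finset.sum_const, Finset.card_range, nsmul_eq_mul]
  rw [abs_mul, abs_of_pos hq0] at h4
  exact le_of_mul_le_mul_left h4 hq0

end Pool.Agent.EC
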